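import Pool.Agent.Helper86.BHW.Sep

/-!
The flag argument: a convex set whose integer points satisfy the conditions coming from
the successive minima.
-/

open Module

namespace Pool.Agent.Helper86.BHW

/-- the slice at height `t` -/
def slice1 {m : ℕ} (N : Set (Fin (m + 1) → ℝ)) (t : ℤ) : Set (Fin m → ℝ) :=
  {x | (Fin.snoc x (t : ℝ) : Fin (m + 1) → ℝ) ∈ N}

theorem cz_snoc {m : ℕ} (x : Fin m → ℤ) (t : ℤ) :
    cz (Fin.snoc x t : Fin (m + 1) → ℤ) = (Fin.snoc (cz x) (t : ℝ) : Fin (m + 1) → ℝ) := by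
  funext j
  refine Fin.lastCases ?_ (fun j => ?_) j <;> simp [cz]

theorem red_snoc {m : ℕ} (n : ℕ) (x : Fin m → ℤ) (t : ℤ) :
    red n (Fin.snoc x t : Fin (m + 1) → ℤ) =
      (Fin.snoc (red n x) (t : ZMod n) : Fin (m + 1) → ZMod n) := by
  funext j
  refine Fin.lastCases ?_ (fun j => ?_) j <;> simp [red]

theorem slice1_convex {m : ℕ} {N : Set (Fin (m + 1) → ℝ)} (hN : Convex ℝ N) (t : ℤ) :
    Convex ℝ (slice1 N t) := by
  intro x hx x' hx' a b ha hb hab
  have h := hN hx hx' ha hb hab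
  show (Fin.snoc (a • x + b • x') (t : ℝ) : Fin (m + 1) → ℝ) ∈ N
  have e : (Fin.snoc (a • x + b • x') (t : ℝ) : Fin (m + 1) → ℝ) =
      a • (Fin.snoc x (t : ℝ) : Fin (m + 1) → ℝ) + b • (Fin.snoc x' (t : ℝ) : Fin (m + 1) → ℝ) := by
    funext j
    refine Fin.lastCases ?_ (fun j => ?_) j
    · simp only [Fin.snoc_last, Pi.add_apply, Pi.smul_apply, smul_eq_mul]
      rw [← add_mul, hab, one_mul]
    · simp
  rw [e]
  exact h

theorem mem_ipts_slice1 {m : ℕ} {N : Set (Fin (m + 1) → ℝ)} {t : ℤ} {x : Fin m → ℤ} :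
    x ∈ ipts (slice1 N t) ↔ (Fin.snoc x t : Fin (m + 1) → ℤ) ∈ ipts N := by
  show (Fin.snoc (cz x) (t : ℝ) : Fin (m + 1) → ℝ) ∈ N ↔ cz (Fin.snoc x t : Fin (m + 1) → ℤ) ∈ N
  rw [cz_snoc]

theorem ipts_slice1_finite {m : ℕ} {N : Set (Fin (m + 1) → ℝ)} (hfin : (ipts N).Finite) (t : ℤ) :
    (ipts (slice1 N t)).Finite := by
  apply Set.Finite.of_finite_image (f := fun x => (Fin.snoc x t : Fin (m + 1) → ℤ))
  · apply hfin.subset
    rintro _ ⟨x, hx, rfl⟩
    exact mem_ipts_slice1.1 hx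
  · intro x _ x' _ h
    have := congrArg Fin.init h
    simpa using this

/-- the summation step -/
theorem fiber {m : ℕ} (N : Set (Fin (m + 1) → ℝ)) (hfin : (ipts N).Finite) (p : ℕ) (hp : 0 < p)
    (a c : ℕ)
    (hinj : ∀ z ∈ ipts N, ∀ z' ∈ ipts N, red p z = red p z' → z (Fin.last m) = z' (Fin.last m))
    (hsl : ∀ t : ℤ, (ipts (slice1 N t)).ncard * a ≤ c * (hit p (slice1 N t)).ncard) :
    (ipts N).ncard * a ≤ c * (hit p N).ncard := by
  classical
  haveI : NeZero p := ⟨hp.ne'⟩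
  set Γ : Set ℤ := (fun z : Fin (m + 1) → ℤ => z (Fin.last m)) '' ipts N with hΓ
  have hΓfin : Γ.Finite := hfin.image _
  have hmemΓ : ∀ t x, x ∈ ipts (slice1 N t) → t ∈ Γ := by
    intro t x hx
    rw [mem_ipts_slice1] at hx
    exact ⟨_, hx, by simp⟩
  let A : Finset (Σ _ : ℤ, (Fin m → ℤ)) :=
    hΓfin.toFinset.sigma (fun t => (ipts_slice1_finite hfin t).toFinset)
  let B : Finset (Σ _ : ℤ, (Fin m → ZMod p)) :=
    hΓfin.toFinset.sigma (fun t => (Set.toFinite (hit p (slice1 N t))).toFinset)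
  have hA : A.card = ∑ t ∈ hΓfin.toFinset, (ipts (slice1 N t)).ncard := by
    rw [Finset.card_sigma]
    apply Finset.sum_congr rfl
    intro t _
    rw [Set.ncard_eq_toFinset_card _ (ipts_slice1_finite hfin t)]
  have hB : B.card = ∑ t ∈ hΓfin.toFinset, (hit p (slice1 N t)).ncard := by
    rw [Finset.card_sigma]
    apply Finset.sum_congr rfl
    intro t _
    rw [Set.ncard_eq_toFinset_card _ (Set.toFinite _)]
  have hsum : A.card * a ≤ c * B.card := by
    rw [hA, hB, Finset.sum_mul, Finset.mul_sum]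
    exact Finset.sum_le_sum fun t _ => hsl t
  have h1 : (ipts N).ncard ≤ A.card := by
    rw [Set.ncard_eq_toFinset_card _ hfin]
    apply Finset.card_le_card_of_injOn
      (fun z => (⟨z (Fin.last m), Fin.init z⟩ : Σ _ : ℤ, (Fin m → ℤ)))
    · intro z hz
      have hz' : z ∈ ipts N := by simpa using hz
      have h2 : (Fin.init z : Fin m → ℤ) ∈ ipts (slice1 N (z (Fin.last m))) := by
        rw [mem_ipts_slice1, Fin.snoc_init_self]
        exact hz'
      simp only [A, Finset.coe_sigma, Set.mem_sigma_iff, Finset.mem_coe, Set.Finite.mem_toFinset]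
      exact ⟨hmemΓ _ _ h2, h2⟩
    · intro z _ z' _ h
      simp only [Sigma.mk.injEq, heq_eq_eq] at h
      rw [← Fin.snoc_init_self z, ← Fin.snoc_init_self z', h.1, h.2]
  have h2 : B.card ≤ (hit p N).ncard := by
    rw [Set.ncard_eq_toFinset_card _ (Set.toFinite (hit p N))]
    apply Finset.card_le_card_of_injOn
      (fun s => (Fin.snoc s.2 (s.1 : ZMod p) : Fin (m + 1) → ZMod p))
    · rintro ⟨t, c⟩ hs
      simp only [B, Finset.coe_sigma, Set.mem_sigma_iff, Finset.mem_coe,
        Set.Finite.mem_toFinset] at hs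
      obtain ⟨x, hx, rfl⟩ := hs.2
      simp only [Set.Finite.coe_toFinset]
      exact ⟨_, mem_ipts_slice1.1 hx, red_snoc _ _ _⟩
    · rintro ⟨t, c⟩ hs ⟨t', c'⟩ hs' h
      simp only [B, Finset.coe_sigma, Set.mem_sigma_iff, Finset.mem_coe,
        Set.Finite.mem_toFinset] at hs hs'
      obtain ⟨x, hx, rfl⟩ := hs.2
      obtain ⟨x', hx', rfl⟩ := hs'.2
      simp only at h
      have e : t = t' := by
        rw [← red_snoc, ← red_snoc] at h
        have := hinj _ (mem_ipts_slice1.1 hx) _ (mem_ipts_slice1.1 hx') h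
        simpa using this
      subst e
      have := congrArg Fin.init h
      simp only [Fin.init_snoc] at this
      rw [this]
  calc (ipts N).ncard * a ≤ A.card * a := Nat.mul_le_mul_right _ h1
    _ ≤ c * B.card := hsum
    _ ≤ c * (hit p N).ncard := Nat.mul_le_mul_left _ h2

/-- a good pair of moduli in dimension `k` -/
def Good (k q p : ℕ) : Prop := p ∣ q ∨ k * p ≤ q

theorem good_compare {m : ℕ} (N : Set (Fin m → ℝ)) (hN : Convex ℝ N) (p q : ℕ) (hp : 0 < p)
    (hq : 0 < q) (hg : Good m q p) :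
    (hit q N).ncard * p ^ m ≤ (hit p N).ncard * q ^ m := by
  rcases hg with h | h
  · have := hit_dvd N p q hq h
    rwa [Fintype.card_fin] at this
  · exact sep m (Fin m) (Fintype.card_fin m) N hN p q hp hq h

/-- the flag theorem, with the extra modulus `q m` -/
theorem flag_aux (q : ℕ → ℕ) (hq : ∀ i, 0 < q i) (m : ℕ)
    (hgood : ∀ i < m, Good (i + 1) (q i) (q (i + 1))) :
    ∀ N : Set (Fin m → ℝ), Convex ℝ N → (ipts N).Finite →
    (∀ i < m, ∀ x ∈ ipts N, ∀ y ∈ ipts N, red (q i) x = red (q i) y →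
      ∀ j : Fin m, i ≤ (j : ℕ) → x j = y j) →
    (ipts N).ncard * (q m) ^ m ≤ (∏ i ∈ Finset.range m, q i) * (hit (q m) N).ncard := by
  induction m with
  | zero =>
    intro N _ hfin _
    haveI : NeZero (q 0) := ⟨(hq 0).ne'⟩
    simp only [pow_zero, mul_one, Finset.range_zero, Finset.prod_empty, one_mul]
    rcases (ipts N).eq_empty_or_nonempty with h | ⟨x, hx⟩
    · rw [h]
      simp
    · have h1 : (ipts N).ncard ≤ 1 := by
        rw [Set.ncard_le_one hfin]
        intro a _ b _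
        exact Subsingleton.elim _ _
      have h2 : 0 < (hit (q 0) N).ncard := by
        rw [Set.ncard_pos (Set.toFinite _)]
        exact ⟨_, x, hx, rfl⟩
      omega
  | succ m ih =>
    intro N hN hfin hflag
    have h1 : (ipts N).ncard * (q m) ^ m ≤
        (∏ i ∈ Finset.range m, q i) * (hit (q m) N).ncard := by
      apply fiber N hfin (q m) (hq m)
      · intro z hz z' hz' h
        exact hflag m (Nat.lt_succ_self m) z hz z' hz' h (Fin.last m) (by simp)
      · intro t
        apply ih (fun i hi => hgood i (Nat.lt_succ_of_lt hi)) (slice1 N t) (slice1_convex hN t)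
          (ipts_slice1_finite hfin t)
        intro i hi x hx y hy h j hij
        have h2 := hflag i (Nat.lt_succ_of_lt hi) _ (mem_ipts_slice1.1 hx) _
          (mem_ipts_slice1.1 hy) (by rw [red_snoc, red_snoc, h]) j.castSucc (by simpa using hij)
        simpa using h2
    have h2 := good_compare N hN (q (m + 1)) (q m) (hq _) (hq _) (hgood m (Nat.lt_succ_self m))
    have hpos : 0 < q m ^ (m + 1) := Nat.pow_pos (hq m)
    apply Nat.le_of_mul_le_mul_right _ hpos
    calc (ipts N).ncard * q (m + 1) ^ (m + 1) * q m ^ (m + 1)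
        = ((ipts N).ncard * q m ^ m) * q m * q (m + 1) ^ (m + 1) := by ring
      _ ≤ ((∏ i ∈ Finset.range m, q i) * (hit (q m) N).ncard) * q m * q (m + 1) ^ (m + 1) :=
          Nat.mul_le_mul_right _ (Nat.mul_le_mul_right _ h1)
      _ = ((∏ i ∈ Finset.range m, q i) * q m) * ((hit (q m) N).ncard * q (m + 1) ^ (m + 1)) := by
          ring
      _ ≤ ((∏ i ∈ Finset.range m, q i) * q m) * ((hit (q (m + 1)) N).ncard * q m ^ (m + 1)) :=
          Nat.mul_le_mul_left _ h2
      _ = _ := by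
          rw [Finset.prod_range_succ]
          ring

/-- the flag theorem -/
theorem flag (d : ℕ) (n : Fin d → ℕ) (hn : ∀ i, 0 < n i)
    (hgood : ∀ i j : Fin d, (j : ℕ) = i + 1 → Good (i + 1) (n i) (n j))
    (N : Set (Fin d → ℝ)) (hN : Convex ℝ N) (hfin : (ipts N).Finite)
    (hflag : ∀ i : Fin d, ∀ x ∈ ipts N, ∀ y ∈ ipts N, ∀ z : Fin d → ℤ, x - y = (n i : ℤ) • z →
      ∀ j : Fin d, i ≤ j → x j = y j) :
    (ipts N).ncard ≤ ∏ i, n i := by
  classical
  let q : ℕ → ℕ := fun i => if h : i < d then n ⟨i, h⟩ else 1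
  have hq : ∀ i, 0 < q i := by
    intro i
    simp only [q]
    split_ifs with h
    · exact hn _
    · exact Nat.one_pos
  have h := flag_aux q hq d (by
    intro i hi
    by_cases h : i + 1 < d
    · have h1 := hgood ⟨i, hi⟩ ⟨i + 1, h⟩ rfl
      simp only [q, dif_pos hi, dif_pos h]
      exact h1
    · left
      simp only [q, dif_neg h]
      exact one_dvd _) N hN hfin (by
    intro i hi x hx y hy hxy j hij
    obtain ⟨z, hz⟩ := red_eq_iff.1 hxy
    have e : q i = n ⟨i, hi⟩ := dif_pos hi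
    rw [e] at hz
    exact hflag ⟨i, hi⟩ x hx y hy z hz j hij)
  have hqd : q d = 1 := by simp [q]
  have hprod : ∏ i ∈ Finset.range d, q i = ∏ i, n i := by
    rw [← Fin.prod_univ_eq_prod_range]
    apply Finset.prod_congr rfl
    intro i _
    simp [q]
  have h1 := ncard_all 1 Nat.one_pos (hit 1 N)
  rw [one_pow] at h1
  rw [hqd, one_pow, mul_one, hprod] at h
  calc (ipts N).ncard ≤ (∏ i, n i) * (hit 1 N).ncard := h
    _ ≤ (∏ i, n i) * 1 := Nat.mul_le_mul_left _ h1
    _ = _ := mul_one _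

end Pool.Agent.Helper86.BHW
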