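import Pool.Agent.Helper85.BHW.Final
import Pool.Agent.Helper86.BHW.Flag

/-!
From convex bodies and successive minima to the flag theorem.
-/

set_option autoImplicit false
open scoped Pointwise
open Module

namespace Pool.Agent.Helper86.BHW

open Pool.Agent.Helper85.BHW (E Lat lam lam_pos lam_mono finrank_le_of_lt_lam finrank_span_le
  adapted_basis zero_mem_interior smul_subset_smul_of_le')

theorem Good.le {k q p : ℕ} (hk : 0 < k) (hq : 0 < q) (h : Good k q p) : p ≤ q := by
  rcases h with h | h
  · exact Nat.le_of_dvd hq h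
  · exact le_trans (Nat.le_mul_of_pos_left p hk) h

theorem sep_bound {d : ℕ} (b : Basis (Fin d) ℝ (E d)) (K : Set (E d)) (hc : Convex ℝ K)
    (hcomp : IsCompact K) (hint : (interior K).Nonempty) (hsymm : ∀ x ∈ K, -x ∈ K)
    (n : Fin d → ℕ) (hn : ∀ i, 2 < n i * lam b K i)
    (hgood : ∀ i j : Fin d, (j : ℕ) = i + 1 → Good (i + 1) (n i) (n j)) :
    (K ∩ (Lat b : Set (E d))).ncard ≤ ∏ i, n i := by
  classical
  have hpos := lam_pos b K hc hcomp hint hsymm
  have hmonoL := lam_mono b K hc hint hsymm
  have h0 : (0 : E d) ∈ K := interior_subset (zero_mem_interior K hc hint hsymm)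
  have hn0 : ∀ i, 0 < n i := by
    intro i
    rcases Nat.eq_zero_or_pos (n i) with h | h
    · have := hn i
      rw [h] at this
      norm_num at this
    · exact h
  have hn0' : ∀ i, (0 : ℝ) < n i := fun i => by exact_mod_cast hn0 i
  have hanti : ∀ i j : Fin d, i ≤ j → n j ≤ n i := by
    have h1 : ∀ (k : ℕ) (i j : Fin d), (j : ℕ) = i + k → n j ≤ n i := by
      intro k
      induction k with
      | zero =>
        intro i j h
        have : j = i := Fin.ext (by simpa using h)
        rw [this]
      | succ k ih =>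
        intro i j h
        have hj := j.isLt
        have h2 := ih i ⟨i + k, by omega⟩ rfl
        have h3 := (hgood ⟨i + k, by omega⟩ j (by simp only; omega)).le (Nat.succ_pos _) (hn0 _)
        exact h3.trans h2
    intro i j hij
    exact h1 (j - i) i j (by have : (i : ℕ) ≤ j := hij; omega)
  set a : Fin d → ℝ := fun i => 2 / n i with ha
  have ha0 : ∀ i, 0 < a i := fun i => div_pos two_pos (hn0' i)
  have hlt : ∀ i, a i < lam b K i := by
    intro i
    rw [ha]
    simp only
    rw [div_lt_iff₀ (hn0' i)]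
    have := hn i
    linarith
  have hamono : ∀ i j : Fin d, i ≤ j → a i ≤ a j := by
    intro i j hij
    apply div_le_div_of_nonneg_left two_pos.le (hn0' j)
    exact_mod_cast hanti i j hij
  let S : Fin d → Submodule ℤ (Lat b) := fun i =>
    Submodule.span ℤ {x : Lat b | (x : E d) ∈ (a i) • K}
  have hSmono : Monotone S := by
    intro i j hij
    apply Submodule.span_mono
    intro x hx
    exact smul_subset_smul_of_le' hc h0 (ha0 i) (hamono i j hij) hx
  have hSrank : ∀ i, finrank ℤ (S i) ≤ (i : ℕ) := by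
    intro i
    apply finrank_span_le
    exact finrank_le_of_lt_lam b K i _ (ha0 i) (hlt i)
  have hrank : finrank ℤ (Lat b) = d := by
    rw [ZLattice.rank ℝ (Lat b), finrank_euclideanSpace, Fintype.card_fin]
  obtain ⟨β, hβ⟩ := adapted_basis d (Lat b) hrank S hSmono hSrank
  let T : (Fin d → ℝ) →ₗ[ℝ] E d :=
    Fintype.linearCombination ℝ (fun j : Fin d => ((β j : Lat b) : E d))
  have hT : ∀ w, T w = ∑ j, w j • ((β j : Lat b) : E d) := fun w =>
    Fintype.linearCombination_apply ℝ _ w
  have hli : LinearIndependent ℝ (fun j : Fin d => ((β j : Lat b) : E d)) := by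
    have h1 := (β.ofZLatticeBasis ℝ (Lat b)).linearIndependent
    have h3 : (fun j : Fin d => ((β j : Lat b) : E d)) = (β.ofZLatticeBasis ℝ (Lat b)) := by
      funext j
      simp
    rw [h3]
    exact h1
  have hTinj : Function.Injective T := by
    exact linearIndependent_iff_injective_fintypeLinearCombination.1 hli
  have hTz : ∀ z : Fin d → ℤ, T (cz z) = ((∑ j, z j • β j : Lat b) : E d) := by
    intro z
    rw [hT]
    simp [cz, Int.cast_smul_eq_zsmul]
  set N : Set (Fin d → ℝ) := T ⁻¹' K with hN
  have hNc : Convex ℝ N := hc.linear_preimage T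
  have hKLfin : (K ∩ (Lat b : Set (E d))).Finite := ZSpan.setFinite_inter b hcomp.isBounded
  have hinj2 : Function.Injective (fun z : Fin d → ℤ => T (cz z)) := by
    intro z z' h
    have h1 := hTinj h
    funext j
    have := congrFun h1 j
    simpa [cz] using this
  have hNfin : (ipts N).Finite := by
    apply Set.Finite.of_finite_image (f := fun z => T (cz z))
    · apply hKLfin.subset
      rintro _ ⟨z, hz, rfl⟩
      refine ⟨hz, ?_⟩
      show T (cz z) ∈ (Lat b : Set (E d))
      rw [hTz]
      exact (∑ j, z j • β j : Lat b).2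
    · exact hinj2.injOn
  have hflag : ∀ i : Fin d, ∀ x ∈ ipts N, ∀ y ∈ ipts N, ∀ z : Fin d → ℤ,
      x - y = (n i : ℤ) • z → ∀ j : Fin d, i ≤ j → x j = y j := by
    intro i x hx y hy z hz j hij
    have h1 : T (cz x) ∈ K := hx
    have h2 : -T (cz y) ∈ K := hsymm _ hy
    have h3 : (1 / 2 : ℝ) • T (cz x) + (1 / 2 : ℝ) • (-T (cz y)) ∈ K :=
      hc h1 h2 (by norm_num) (by norm_num) (by norm_num)
    have h4 : T (cz z) ∈ (a i) • K := by
      refine ⟨_, h3, ?_⟩
      have e1 : T (cz x) - T (cz y) = (n i : ℝ) • T (cz z) := by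
        rw [← map_sub, ← map_smul, ← cz_sub, hz, cz_smul]
        simp
      have hne := (hn0' i).ne'
      simp only
      rw [smul_neg, ← sub_eq_add_neg, ← smul_sub, e1, smul_smul, smul_smul]
      have e2 : a i * (1 / 2) * (n i : ℝ) = 1 := by
        rw [ha]
        field_simp
      rw [e2, one_smul]
    rw [hTz] at h4
    have h5 : (∑ j, z j • β j : Lat b) ∈ S i := Submodule.subset_span h4
    have h6 := hβ _ _ h5 j hij
    have h7 : β.repr (∑ j, z j • β j) j = z j := by
      rw [β.repr_sum_self z]
    rw [h7] at h6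
    have h8 := congrFun hz j
    simp only [Pi.sub_apply, Pi.smul_apply, h6, smul_zero] at h8
    exact sub_eq_zero.1 h8
  have h9 := flag d n hn0 hgood N hNc hNfin hflag
  refine le_trans ?_ h9
  have hsub : K ∩ (Lat b : Set (E d)) ⊆ (fun z => T (cz z)) '' ipts N := by
    rintro u ⟨huK, huL⟩
    have hsum : T (cz (fun j => β.repr ⟨u, huL⟩ j)) = u := by
      rw [hTz, β.sum_repr]
    refine ⟨fun j => β.repr ⟨u, huL⟩ j, ?_, hsum⟩
    show T (cz (fun j => β.repr ⟨u, huL⟩ j)) ∈ K
    rw [hsum]
    exact huK
  calc (K ∩ (Lat b : Set (E d))).ncard ≤ ((fun z => T (cz z)) '' ipts N).ncard :=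
        Set.ncard_le_ncard hsub (hNfin.image _)
    _ ≤ (ipts N).ncard := Set.ncard_image_le hNfin

end Pool.Agent.Helper86.BHW
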