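import Mathlib

/-!
A convex set which contains, modulo every proper subspace, a pair of points whose difference is a
long multiple of a lattice vector, contains a representative of every class modulo the lattice.
-/

open Module
open scoped Pointwise

namespace Pool.Agent.Helper86.BHW

variable {V : Type*} [AddCommGroup V] [Module ℝ V]

theorem cover_aux [FiniteDimensional ℝ V] (M : AddSubgroup V) (p : ℝ) (hp : 0 < p) (c : ℕ) :
    ∀ (U : Submodule ℝ V) (N : Set V) (s : ℝ), Convex ℝ N → N.Nonempty →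
      finrank ℝ V ≤ finrank ℝ U + c → (c : ℝ) * p ≤ s →
      (∀ U' : Submodule ℝ V, U ≤ U' → U' ≠ ⊤ → ∃ x ∈ N, ∃ y ∈ N, ∃ m ∈ M, ∃ u ∈ U',
        m ∉ U' ∧ x - y = s • m + u) →
      ∀ v : V, ∃ m ∈ M, ∃ u ∈ U, v + p • m + u ∈ N := by
  induction c with
  | zero =>
    intro U N s _ hne hr _ _ v
    have hU : U = ⊤ := by
      apply Submodule.eq_top_of_finrank_eq
      exact le_antisymm (Submodule.finrank_le U) (by simpa using hr)
    obtain ⟨z, hz⟩ := hne
    refine ⟨0, M.zero_mem, z - v, by rw [hU]; trivial, ?_⟩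
    have : v + p • (0 : V) + (z - v) = z := by
      rw [smul_zero]
      abel
    rwa [this]
  | succ c ih =>
    intro U N s hN hne hr hs hyp v
    by_cases hU : U = ⊤
    · obtain ⟨z, hz⟩ := hne
      refine ⟨0, M.zero_mem, z - v, by rw [hU]; trivial, ?_⟩
      have : v + p • (0 : V) + (z - v) = z := by
        rw [smul_zero]
        abel
      rwa [this]
    obtain ⟨x, hx, y, hy, m, hm, u0, hu0, hmU, hxy⟩ := hyp U le_rfl hU
    set U1 : Submodule ℝ V := U ⊔ Submodule.span ℝ {m} with hU1
    set t : ℝ := (c : ℝ) / (c + 1) with ht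
    have hc1 : (0 : ℝ) < (c : ℝ) + 1 := by positivity
    have ht0 : 0 ≤ t := by positivity
    have hts : t + 1 / ((c : ℝ) + 1) = 1 := by
      rw [ht]
      field_simp
    have hs0 : 0 < s := by
      push_cast at hs
      exact lt_of_lt_of_le (mul_pos hc1 hp) hs
    have hlt : U < U1 := by
      refine lt_of_le_of_ne le_sup_left fun h => hmU ?_
      rw [h]
      exact Submodule.mem_sup_right (Submodule.mem_span_singleton_self m)
    have hr1 : finrank ℝ V ≤ finrank ℝ U1 + c := by
      have := Submodule.finrank_lt_finrank_of_lt hlt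
      omega
    have hs1 : (c : ℝ) * p ≤ t * s := by
      rw [ht, div_mul_eq_mul_div, le_div_iff₀ hc1]
      push_cast at hs
      have : (c : ℝ) * ((c + 1) * p) ≤ c * s := mul_le_mul_of_nonneg_left hs (by positivity)
      nlinarith
    have hyp1 : ∀ U' : Submodule ℝ V, U1 ≤ U' → U' ≠ ⊤ → ∃ x ∈ t • N, ∃ y ∈ t • N, ∃ m ∈ M,
        ∃ u ∈ U', m ∉ U' ∧ x - y = (t * s) • m + u := by
      intro U' h1 h2
      obtain ⟨x', hx', y', hy', m', hm', u', hu', hmU', hxy'⟩ := hyp U' (le_sup_left.trans h1) h2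
      refine ⟨t • x', Set.smul_mem_smul_set hx', t • y', Set.smul_mem_smul_set hy', m', hm',
        t • u', U'.smul_mem t hu', hmU', ?_⟩
      rw [← smul_sub, hxy', smul_add, smul_smul]
    obtain ⟨m', hm', u', hu', z', hz', hz⟩ := ih U1 (t • N) (t * s) (hN.smul t)
      (hne.smul_set) hr1 hs1 hyp1 (v - (1 / ((c : ℝ) + 1)) • y)
    obtain ⟨u'', hu'', r', hr', hur⟩ := Submodule.mem_sup.1 hu'
    obtain ⟨r, rfl⟩ := Submodule.mem_span_singleton.1 hr'
    set k : ℤ := ⌈r / p⌉ with hk
    have hk1 : r ≤ p * k := by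
      have := Int.le_ceil (r / p)
      rw [div_le_iff₀ hp] at this
      linarith
    have hk2 : p * k < r + p := by
      have := Int.ceil_lt_add_one (r / p)
      have h2 : (k : ℝ) * p < (r / p + 1) * p := mul_lt_mul_of_pos_right this hp
      have h3 : (r / p + 1) * p = r + p := by field_simp
      linarith
    set l : ℝ := (p * k - r) * (c + 1) / s with hl
    have hl0 : 0 ≤ l := by
      apply div_nonneg _ hs0.le
      exact mul_nonneg (by linarith) hc1.le
    have hl1 : l ≤ 1 := by
      rw [hl, div_le_one hs0]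
      push_cast at hs
      nlinarith
    have hls : l * s / (c + 1) = p * k - r := by
      rw [hl]
      field_simp
    refine ⟨m' + k • m, M.add_mem hm' (M.zsmul_mem hm k), u'' + (l / (c + 1)) • u0,
      U.add_mem hu'' (U.smul_mem _ hu0), ?_⟩
    have hw : t • z' + (1 / ((c : ℝ) + 1)) • ((1 - l) • y + l • x) ∈ N := by
      apply hN hz' _ ht0 (by positivity) hts
      exact hN hy hx (by linarith) hl0 (by ring)
    have hx' : x = y + (s • m + u0) := by
      rw [← hxy]
      abel
    have hz2 : t • z' = v - (1 / ((c : ℝ) + 1)) • y + p • m' + (u'' + r • m) := by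
      rw [hur]
      exact hz
    have e : v + p • (m' + k • m) + (u'' + (l / (c + 1)) • u0) =
        t • z' + (1 / ((c : ℝ) + 1)) • ((1 - l) • y + l • x) := by
      rw [hz2, hx', ← Int.cast_smul_eq_zsmul ℝ k m]
      have h1 : (1 / ((c : ℝ) + 1)) * (l * s) = p * k - r := by
        rw [← hls]
        ring
      have h2 : (p * (k : ℝ)) = r + (1 / ((c : ℝ) + 1)) * (l * s) := by rw [h1]; ring
      simp only [smul_add, smul_sub, smul_smul]
      rw [h2]
      module
    rw [e]
    exact hw

/-- covering lemma -/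
theorem cover [FiniteDimensional ℝ V] (M : AddSubgroup V) (p s : ℝ) (hp : 0 < p)
    (hs : (finrank ℝ V : ℝ) * p ≤ s) (N : Set V) (hN : Convex ℝ N) (hne : N.Nonempty)
    (hyp : ∀ U : Submodule ℝ V, U ≠ ⊤ → ∃ x ∈ N, ∃ y ∈ N, ∃ m ∈ M, ∃ u ∈ U,
        m ∉ U ∧ x - y = s • m + u) (v : V) : ∃ m ∈ M, v + p • m ∈ N := by
  obtain ⟨m, hm, u, hu, h⟩ := cover_aux M p hp (finrank ℝ V) ⊥ N s hN hne (by simp) hs
    (fun U' _ h => hyp U' h) v
  rw [Submodule.mem_bot] at hu
  rw [hu, add_zero] at h
  exact ⟨m, hm, h⟩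

end Pool.Agent.Helper86.BHW
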