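import Mathlib

/-!
Residue classes hit by the integer points of a set.
-/

open Module

namespace Pool.Agent.Helper86.BHW

/-- integer vector as a real vector -/
def cz {ι : Type*} (z : ι → ℤ) : ι → ℝ := fun j => (z j : ℝ)

/-- reduction modulo `n` -/
def red {ι : Type*} (n : ℕ) (z : ι → ℤ) : ι → ZMod n := fun j => (z j : ZMod n)

/-- integer points of `N` -/
def ipts {ι : Type*} (N : Set (ι → ℝ)) : Set (ι → ℤ) := {z | cz z ∈ N}

/-- residue classes modulo `n` hit by the integer points of `N` -/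
def hit {ι : Type*} (n : ℕ) (N : Set (ι → ℝ)) : Set (ι → ZMod n) := red n '' ipts N

theorem cz_add {ι : Type*} (x y : ι → ℤ) : cz (x + y) = cz x + cz y := by
  funext j
  simp [cz]

theorem cz_sub {ι : Type*} (x y : ι → ℤ) : cz (x - y) = cz x - cz y := by
  funext j
  simp [cz]

theorem cz_smul {ι : Type*} (n : ℤ) (x : ι → ℤ) : cz (n • x) = (n : ℝ) • cz x := by
  funext j
  simp [cz]

theorem red_eq_iff {ι : Type*} {n : ℕ} {x y : ι → ℤ} :
    red n x = red n y ↔ ∃ z : ι → ℤ, x - y = (n : ℤ) • z := by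
  constructor
  · intro h
    have h1 : ∀ j, ∃ c, x j - y j = (n : ℤ) * c := by
      intro j
      have := congrFun h j
      simp only [red] at this
      have h2 := (ZMod.intCast_eq_intCast_iff_dvd_sub _ _ _).1 this
      obtain ⟨c, hc⟩ := h2
      exact ⟨-c, by linear_combination -hc⟩
    choose z hz using h1
    refine ⟨z, ?_⟩
    funext j
    simpa using hz j
  · rintro ⟨z, hz⟩
    funext j
    have h1 := congrFun hz j
    simp only [Pi.sub_apply, Pi.smul_apply, smul_eq_mul] at h1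
    simp only [red]
    rw [ZMod.intCast_eq_intCast_iff_dvd_sub]
    exact ⟨-z j, by linear_combination -h1⟩

theorem red_surj {ι : Type*} (n : ℕ) (c : ι → ZMod n) : ∃ z : ι → ℤ, red n z = c := by
  have : ∀ j, ∃ z : ℤ, (z : ZMod n) = c j := fun j => ZMod.intCast_surjective (c j)
  choose z hz using this
  exact ⟨z, funext hz⟩

/-- a set of integer vectors in one class modulo `p` and pairwise incongruent modulo `k p` -/
theorem card_fib {ι : Type*} [Fintype ι] (p k : ℕ) (hk : 0 < k) (Y : Set (ι → ℤ))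
    (h1 : ∀ y ∈ Y, ∀ y' ∈ Y, red p y = red p y')
    (h2 : ∀ y ∈ Y, ∀ y' ∈ Y, red (k * p) y = red (k * p) y' → y = y') :
    Y.Finite ∧ Y.ncard ≤ k ^ Fintype.card ι := by
  classical
  haveI : NeZero k := ⟨hk.ne'⟩
  rcases Y.eq_empty_or_nonempty with rfl | ⟨y0, hy0⟩
  · simp
  have h3 : ∀ y ∈ Y, ∃ δ : ι → ℤ, y - y0 = (p : ℤ) • δ := fun y hy =>
    red_eq_iff.1 (h1 y hy y0 hy0)
  choose! δ hδ using h3
  have hinj : Set.InjOn (fun y => red k (δ y)) Y := by
    intro y hy y' hy' h
    obtain ⟨z, hz⟩ := red_eq_iff.1 h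
    apply h2 y hy y' hy'
    rw [red_eq_iff]
    refine ⟨z, ?_⟩
    have e : y - y' = (y - y0) - (y' - y0) := by abel
    rw [e, hδ y hy, hδ y' hy', ← smul_sub, hz, smul_smul]
    push_cast
    ring_nf
  have hfin : ((fun y => red k (δ y)) '' Y).Finite := Set.toFinite _
  refine ⟨hfin.of_finite_image hinj, ?_⟩
  rw [← Set.ncard_image_of_injOn hinj]
  calc ((fun y => red k (δ y)) '' Y).ncard ≤ (Set.univ : Set (ι → ZMod k)).ncard :=
        Set.ncard_le_ncard (Set.subset_univ _)
    _ = k ^ Fintype.card ι := by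
        rw [Set.ncard_univ, Nat.card_eq_fintype_card, Fintype.card_fun, ZMod.card]

theorem ncard_all {ι : Type*} [Fintype ι] (n : ℕ) (hn : 0 < n) (A : Set (ι → ZMod n)) :
    A.ncard ≤ n ^ Fintype.card ι := by
  haveI : NeZero n := ⟨hn.ne'⟩
  classical
  calc A.ncard ≤ (Set.univ : Set (ι → ZMod n)).ncard := Set.ncard_le_ncard (Set.subset_univ _)
    _ = n ^ Fintype.card ι := by
        rw [Set.ncard_univ, Nat.card_eq_fintype_card, Fintype.card_fun, ZMod.card]

/-- image of a set with bounded fibres -/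
theorem ncard_le_mul {α β : Type*} (A : Set α) (hA : A.Finite) (f : α → β) (m : ℕ)
    (h : ∀ b ∈ f '' A, {a ∈ A | f a = b}.ncard ≤ m) : A.ncard ≤ m * (f '' A).ncard := by
  classical
  have hcoe : (hA.toFinset : Set α) = A := hA.coe_toFinset
  have h1 := Finset.card_le_mul_card_image (s := hA.toFinset) (f := f) m (by
    intro b hb
    have hb' : b ∈ f '' A := by
      rw [Finset.mem_image] at hb
      obtain ⟨a, ha, rfl⟩ := hb
      exact ⟨a, by simpa using ha, rfl⟩
    have h2 := h b hb'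
    have e : {a ∈ A | f a = b} = ((hA.toFinset.filter (fun a => f a = b) : Finset α) : Set α) := by
      ext a
      simp
    rw [e, Set.ncard_coe_finset] at h2
    exact h2)
  have e1 : A.ncard = hA.toFinset.card := Set.ncard_eq_toFinset_card A hA
  have e2 : (f '' A).ncard = (hA.toFinset.image f).card := by
    rw [← Set.ncard_coe_finset, Finset.coe_image, hcoe]
  rw [e1, e2]
  exact h1

/-- divisible moduli -/
theorem hit_dvd {ι : Type*} [Fintype ι] (N : Set (ι → ℝ)) (p q : ℕ) (hq : 0 < q) (hpq : p ∣ q) :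
    (hit q N).ncard * p ^ Fintype.card ι ≤ (hit p N).ncard * q ^ Fintype.card ι := by
  classical
  obtain ⟨k, rfl⟩ := hpq
  have hk : 0 < k := Nat.pos_of_mul_pos_left hq
  have hp : 0 < p := Nat.pos_of_mul_pos_right hq
  haveI : NeZero (p * k) := ⟨hq.ne'⟩
  haveI : NeZero p := ⟨hp.ne'⟩
  -- choose representatives
  have hrep : ∀ c ∈ hit (p * k) N, ∃ z ∈ ipts N, red (p * k) z = c := fun c hc => hc
  choose! g hg1 hg2 using hrep
  have hginj : Set.InjOn g (hit (p * k) N) := fun c hc c' hc' h => by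
    rw [← hg2 c hc, ← hg2 c' hc', h]
  have h1 : (hit (p * k) N).ncard ≤ k ^ Fintype.card ι *
      ((fun c => red p (g c)) '' (hit (p * k) N)).ncard := by
    apply ncard_le_mul _ (Set.toFinite _)
    rintro _ ⟨c0, hc0, rfl⟩
    have h2 := (card_fib p k hk (g '' {c ∈ hit (p * k) N | red p (g c) = red p (g c0)})
      (by
        rintro _ ⟨c, hc, rfl⟩ _ ⟨c', hc', rfl⟩
        rw [hc.2, hc'.2])
      (by
        rintro _ ⟨c, hc, rfl⟩ _ ⟨c', hc', rfl⟩ h
        rw [mul_comm k p] at h
        rw [hg2 c hc.1, hg2 c' hc'.1] at h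
        rw [h])).2
    rwa [Set.ncard_image_of_injOn (hginj.mono fun c hc => hc.1)] at h2
  have h3 : ((fun c => red p (g c)) '' (hit (p * k) N)).ncard ≤ (hit p N).ncard := by
    apply Set.ncard_le_ncard _ (Set.toFinite _)
    rintro _ ⟨c, hc, rfl⟩
    exact ⟨g c, hg1 c hc, rfl⟩
  calc (hit (p * k) N).ncard * p ^ Fintype.card ι
      ≤ (k ^ Fintype.card ι * (hit p N).ncard) * p ^ Fintype.card ι :=
        Nat.mul_le_mul_right _ (h1.trans (Nat.mul_le_mul_left _ h3))
    _ = (hit p N).ncard * (p * k) ^ Fintype.card ι := by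
        rw [mul_pow]
        ring

/-- change of basis -/
theorem hit_basis {ι κ : Type*} [Fintype ι] [Fintype κ] (b : Basis κ ℤ (ι → ℤ)) (n : ℕ)
    (N : Set (ι → ℝ)) :
    (hit n {x : κ → ℝ | ∑ i, x i • cz (b i) ∈ N}).ncard = (hit n N).ncard := by
  classical
  have hT : ∀ x : κ → ℤ, (∑ i, cz x i • cz (b i)) = cz (∑ i, x i • b i) := by
    intro x
    funext j
    simp [cz, Finset.sum_apply]
  have hi : ∀ x : κ → ℤ, x ∈ ipts {x : κ → ℝ | ∑ i, x i • cz (b i) ∈ N} ↔
      (∑ i, x i • b i) ∈ ipts N := by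
    intro x
    show (∑ i, cz x i • cz (b i)) ∈ N ↔ cz (∑ i, x i • b i) ∈ N
    rw [hT]
  -- the map on residue classes
  let f : (κ → ZMod n) → (ι → ZMod n) := fun c => ∑ i, c i • red n (b i)
  have hf : ∀ x : κ → ℤ, f (red n x) = red n (∑ i, x i • b i) := by
    intro x
    funext j
    simp [f, red, Finset.sum_apply]
  have hfinj : Function.Injective f := by
    intro c c' h
    obtain ⟨x, rfl⟩ := red_surj n c
    obtain ⟨x', rfl⟩ := red_surj n c'
    rw [hf, hf] at h
    obtain ⟨z, hz⟩ := red_eq_iff.1 h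
    rw [red_eq_iff]
    refine ⟨fun i => b.repr z i, ?_⟩
    funext i
    have h1 : b.repr (∑ i, x i • b i - ∑ i, x' i • b i) i = x i - x' i := by
      rw [← Finset.sum_sub_distrib]
      simp_rw [← sub_smul]
      rw [b.repr_sum_self (fun i => x i - x' i)]
    rw [hz, map_smul] at h1
    simp only [Finsupp.smul_apply, smul_eq_mul] at h1
    simp only [Pi.sub_apply, Pi.smul_apply, smul_eq_mul]
    exact h1.symm
  have himg : hit n N = f '' hit n {x : κ → ℝ | ∑ i, x i • cz (b i) ∈ N} := by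
    ext c
    constructor
    · rintro ⟨z, hz, rfl⟩
      refine ⟨red n (fun i => b.repr z i), ⟨fun i => b.repr z i, ?_, rfl⟩, ?_⟩
      · rw [hi, b.sum_repr]
        exact hz
      · rw [hf, b.sum_repr]
    · rintro ⟨_, ⟨x, hx, rfl⟩, rfl⟩
      exact ⟨∑ i, x i • b i, (hi x).1 hx, (hf x).symm⟩
  rw [himg, Set.ncard_image_of_injective _ hfinj]

/-- a proper real subspace cuts out a saturated sublattice -/
theorem exists_adapted {ι : Type} [Fintype ι] (U : Submodule ℝ (ι → ℝ)) (hU : U ≠ ⊤) :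
    ∃ (i r : ℕ), 0 < r ∧ i + r = Fintype.card ι ∧
      ∃ b : Basis (Fin i ⊕ Fin r) ℤ (ι → ℤ), ∀ z : ι → ℤ,
        cz z ∈ U ↔ ∀ c : Fin r, b.repr z (Sum.inr c) = 0 := by
  classical
  let φ : (ι → ℤ) →ₗ[ℤ] (ι → ℝ) :=
    { toFun := cz
      map_add' := cz_add
      map_smul' := fun n x => by
        rw [cz_smul, RingHom.id_apply, Int.cast_smul_eq_zsmul] }
  let W : Submodule ℤ (ι → ℤ) := (U.restrictScalars ℤ).comap φ
  have hW : ∀ z, z ∈ W ↔ cz z ∈ U := fun z => Iff.rfl
  have htf : Module.IsTorsionFree ℤ ((ι → ℤ) ⧸ W) := by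
    rw [Module.isTorsionFree_iff_smul_eq_zero]
    intro n x h
    obtain ⟨z, rfl⟩ := W.mkQ_surjective x
    rcases eq_or_ne n 0 with hn | hn
    · exact Or.inl hn
    · right
      rw [← map_smul] at h
      rw [Submodule.mkQ_apply, Submodule.Quotient.mk_eq_zero] at h ⊢
      rw [hW, cz_smul] at h
      rw [hW]
      have hn' : (n : ℝ) ≠ 0 := by exact_mod_cast hn
      exact (Submodule.smul_mem_iff U hn').1 h
  haveI : Module.Free ℤ ((ι → ℤ) ⧸ W) := Module.free_of_finite_type_torsion_free'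
  let bW : Basis (Fin (finrank ℤ W)) ℤ W := finBasis ℤ W
  let bQ : Basis (Fin (finrank ℤ ((ι → ℤ) ⧸ W))) ℤ ((ι → ℤ) ⧸ W) := finBasis ℤ _
  let b := Basis.sumQuot bW bQ
  have key : ∀ z : ι → ℤ, cz z ∈ U ↔ ∀ c, b.repr z (Sum.inr c) = 0 := by
    intro z
    rw [← hW]
    constructor
    · intro h c
      exact Basis.sumQuot_repr_inr_of_mem bW bQ z h c
    · intro h
      have h1 : bQ.repr (W.mkQ z) = 0 := by
        ext c
        have := h c
        rw [Basis.sumQuot_repr_inr] at this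
        simpa using this
      have h2 : W.mkQ z = 0 := by
        rw [← bQ.repr.map_eq_zero_iff]
        exact h1
      rwa [Submodule.mkQ_apply, Submodule.Quotient.mk_eq_zero] at h2
  refine ⟨finrank ℤ W, finrank ℤ ((ι → ℤ) ⧸ W), ?_, ?_, b, key⟩
  · by_contra h0
    have h0' : finrank ℤ ((ι → ℤ) ⧸ W) = 0 := by omega
    apply hU
    rw [eq_top_iff]
    intro v _
    have hv : v = ∑ j, v j • cz (Pi.single j (1 : ℤ)) := by
      funext j
      simp [cz, Finset.sum_apply, Pi.single_apply]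
    rw [hv]
    apply Submodule.sum_mem
    intro j _
    apply Submodule.smul_mem
    rw [key]
    intro c
    have : IsEmpty (Fin (finrank ℤ ((ι → ℤ) ⧸ W))) := by
      rw [h0']
      infer_instance
    exact this.elim c
  · have := Submodule.finrank_quotient_add_finrank W
    rw [Module.finrank_pi] at this
    omega

end Pool.Agent.Helper86.BHW
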