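import Pool.Agent.Helper86.BHW.Cover
import Pool.Agent.Helper86.BHW.Hit

/-!
Comparison of the residue classes hit by a convex set modulo two moduli `p`, `q` with
`dim * p ≤ q`.
-/

open Module

namespace Pool.Agent.Helper86.BHW

theorem cz_elim {α β : Type*} (x : α → ℤ) (y : β → ℤ) :
    cz (Sum.elim x y) = Sum.elim (cz x) (cz y) := by
  funext j
  cases j <;> rfl

theorem red_elim {α β : Type*} (n : ℕ) (x : α → ℤ) (y : β → ℤ) :
    red n (Sum.elim x y) = Sum.elim (red n x) (red n y) := by
  funext j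
  cases j <;> rfl

/-- the slice of `N` above the integer point `y` -/
def slice {α β : Type*} (N : Set (α ⊕ β → ℝ)) (y : β → ℤ) : Set (α → ℝ) :=
  {x | Sum.elim x (cz y) ∈ N}

theorem slice_convex {α β : Type*} {N : Set (α ⊕ β → ℝ)} (hN : Convex ℝ N) (y : β → ℤ) :
    Convex ℝ (slice N y) := by
  intro x hx x' hx' a b ha hb hab
  have h := hN hx hx' ha hb hab
  show Sum.elim (a • x + b • x') (cz y) ∈ N
  have e : Sum.elim (a • x + b • x') (cz y) =
      a • Sum.elim x (cz y) + b • Sum.elim x' (cz y) := by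
    funext j
    cases j with
    | inl j => rfl
    | inr j =>
      show cz y j = a * cz y j + b * cz y j
      rw [← add_mul, hab, one_mul]
  rw [e]
  exact h

theorem mem_ipts_slice {α β : Type*} {N : Set (α ⊕ β → ℝ)} {y : β → ℤ} {x : α → ℤ} :
    x ∈ ipts (slice N y) ↔ Sum.elim x y ∈ ipts N := by
  show Sum.elim (cz x) (cz y) ∈ N ↔ cz (Sum.elim x y) ∈ N
  rw [cz_elim]

/-- the counting step: `Γ` is the set of nonempty integer slices -/
theorem count {α β : Type} [Fintype α] [Fintype β] (N : Set (α ⊕ β → ℝ)) (k p q : ℕ)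
    (hk : 0 < k) (hp : 0 < p) (hq : 0 < q) (hkq : k * p ≤ q)
    (hinj : ∀ z ∈ ipts N, ∀ z' ∈ ipts N, red (k * p) (z ∘ Sum.inr) = red (k * p) (z' ∘ Sum.inr) →
      z ∘ Sum.inr = z' ∘ Sum.inr)
    (hsl : ∀ y : β → ℤ, (hit q (slice N y)).ncard * p ^ Fintype.card α ≤
      (hit p (slice N y)).ncard * q ^ Fintype.card α) :
    (hit q N).ncard * p ^ (Fintype.card α + Fintype.card β) ≤
      (hit p N).ncard * q ^ (Fintype.card α + Fintype.card β) := by
  classical
  haveI : NeZero p := ⟨hp.ne'⟩
  haveI : NeZero q := ⟨hq.ne'⟩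
  haveI : NeZero (k * p) := ⟨(Nat.mul_pos hk hp).ne'⟩
  set Γ : Set (β → ℤ) := (fun z : α ⊕ β → ℤ => z ∘ Sum.inr) '' ipts N with hΓ
  have hΓinj : Set.InjOn (red (k * p)) Γ := by
    rintro _ ⟨z, hz, rfl⟩ _ ⟨z', hz', rfl⟩ h
    exact hinj z hz z' hz' h
  have hΓfin : Γ.Finite := Set.Finite.of_finite_image (Set.toFinite _) hΓinj
  have hmemΓ : ∀ y x, x ∈ ipts (slice N y) → y ∈ Γ := by
    intro y x hx
    rw [mem_ipts_slice] at hx
    exact ⟨_, hx, by funext j; rfl⟩
  let Sg : ℕ → Type := fun n => Σ _ : (β → ℤ), (α → ZMod n)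
  -- the finite set of pairs
  let A : (n : ℕ) → [NeZero n] → Finset (Σ _ : (β → ℤ), (α → ZMod n)) := fun n _ =>
    hΓfin.toFinset.sigma (fun y => (Set.toFinite (hit n (slice N y))).toFinset)
  have hAcard : ∀ (n : ℕ) [NeZero n], (A n).card = ∑ y ∈ hΓfin.toFinset, (hit n (slice N y)).ncard := by
    intro n _
    rw [Finset.card_sigma]
    apply Finset.sum_congr rfl
    intro y _
    rw [Set.ncard_eq_toFinset_card _ (Set.toFinite _)]
  have hsum : (A q).card * p ^ Fintype.card α ≤ (A p).card * q ^ Fintype.card α := by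
    rw [hAcard, hAcard, Finset.sum_mul, Finset.sum_mul]
    exact Finset.sum_le_sum fun y _ => hsl y
  -- the map to classes
  let f : (n : ℕ) → (Σ _ : (β → ℤ), (α → ZMod n)) → (α ⊕ β → ZMod n) := fun n s =>
    Sum.elim s.2 (red n s.1)
  have hfA : ∀ (n : ℕ) [NeZero n], (((A n).image (f n) : Finset _) : Set _) = hit n N := by
    intro n _
    ext c
    simp only [Finset.coe_image, Set.mem_image, Finset.mem_coe]
    constructor
    · rintro ⟨⟨y, a⟩, hs, rfl⟩
      simp only [A, Finset.mem_sigma, Set.Finite.mem_toFinset] at hs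
      obtain ⟨x, hx, hxa⟩ := hs.2
      refine ⟨Sum.elim x y, mem_ipts_slice.1 hx, ?_⟩
      rw [red_elim, hxa]
    · rintro ⟨z, hz, rfl⟩
      have hz2 : Sum.elim (z ∘ Sum.inl) (z ∘ Sum.inr) = z := Sum.elim_comp_inl_inr z
      have hz1 : z ∘ Sum.inl ∈ ipts (slice N (z ∘ Sum.inr)) := by
        rw [mem_ipts_slice, hz2]
        exact hz
      refine ⟨⟨z ∘ Sum.inr, red n (z ∘ Sum.inl)⟩, ?_, ?_⟩
      · simp only [A, Finset.mem_sigma, Set.Finite.mem_toFinset]
        exact ⟨hmemΓ _ _ hz1, ⟨_, hz1, rfl⟩⟩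
      · show Sum.elim (red n (z ∘ Sum.inl)) (red n (z ∘ Sum.inr)) = red n z
        rw [← red_elim, hz2]
  have h1 : (hit q N).ncard ≤ (A q).card := by
    rw [← hfA q, Set.ncard_coe_finset]
    exact Finset.card_image_le
  have h2 : (A p).card ≤ k ^ Fintype.card β * (hit p N).ncard := by
    rw [← hfA p, Set.ncard_coe_finset]
    apply Finset.card_le_mul_card_image
    intro c _
    have h3 := (card_fib p k hk {y ∈ Γ | red p y = c ∘ Sum.inr}
      (by
        rintro y hy y' hy'
        rw [hy.2, hy'.2])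
      (by
        rintro y hy y' hy' h
        exact hΓinj hy.1 hy'.1 h))
    have h4 : ((A p).filter (fun s => f p s = c)).card ≤
        (h3.1.toFinset).card := by
      apply Finset.card_le_card_of_injOn (fun s => s.1)
      · rintro ⟨y, a⟩ hs
        simp only [Finset.coe_filter, Set.mem_setOf_eq, A, Finset.mem_sigma,
          Set.Finite.mem_toFinset, f] at hs
        simp only [Set.Finite.coe_toFinset, Set.mem_setOf_eq]
        refine ⟨hs.1.1, ?_⟩
        rw [← hs.2]
        funext j
        rfl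
      · rintro ⟨y, a⟩ hs ⟨y', a'⟩ hs' h
        simp only [Finset.coe_filter, Set.mem_setOf_eq, f] at hs hs'
        simp only at h
        subst h
        have : a = a' := by
          have e := hs.2.trans hs'.2.symm
          funext j
          exact congrFun e (Sum.inl j)
        rw [this]
    rw [← Set.ncard_eq_toFinset_card _ h3.1] at h4
    exact h4.trans h3.2
  calc (hit q N).ncard * p ^ (Fintype.card α + Fintype.card β)
      ≤ (A q).card * p ^ (Fintype.card α + Fintype.card β) := Nat.mul_le_mul_right _ h1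
    _ = ((A q).card * p ^ Fintype.card α) * p ^ Fintype.card β := by rw [pow_add]; ring
    _ ≤ ((A p).card * q ^ Fintype.card α) * p ^ Fintype.card β := Nat.mul_le_mul_right _ hsum
    _ ≤ ((k ^ Fintype.card β * (hit p N).ncard) * q ^ Fintype.card α) * p ^ Fintype.card β :=
        Nat.mul_le_mul_right _ (Nat.mul_le_mul_right _ h2)
    _ = (hit p N).ncard * (q ^ Fintype.card α * (k * p) ^ Fintype.card β) := by
        rw [mul_pow]
        ring
    _ ≤ (hit p N).ncard * (q ^ Fintype.card α * q ^ Fintype.card β) := by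
        apply Nat.mul_le_mul_left
        apply Nat.mul_le_mul_left
        exact Nat.pow_le_pow_left hkq _
    _ = _ := by rw [pow_add]

/-- the integer vectors as a subgroup of the real vectors -/
def intSub (ι : Type*) : AddSubgroup (ι → ℝ) where
  carrier := {v | ∃ z : ι → ℤ, cz z = v}
  add_mem' := by
    rintro _ _ ⟨z, rfl⟩ ⟨z', rfl⟩
    exact ⟨z + z', cz_add z z'⟩
  zero_mem' := ⟨0, by funext j; simp [cz]⟩
  neg_mem' := by
    rintro _ ⟨z, rfl⟩
    exact ⟨-z, by funext j; simp [cz]⟩

theorem mem_intSub {ι : Type*} {v : ι → ℝ} : v ∈ intSub ι ↔ ∃ z : ι → ℤ, cz z = v := Iff.rfl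

/-- the comparison theorem: moduli `p`, `q` with `dim * p ≤ q` -/
theorem sep (k : ℕ) : ∀ (ι : Type) [Fintype ι], Fintype.card ι = k → ∀ (N : Set (ι → ℝ)),
    Convex ℝ N → ∀ p q : ℕ, 0 < p → 0 < q → k * p ≤ q →
    (hit q N).ncard * p ^ k ≤ (hit p N).ncard * q ^ k := by
  induction k using Nat.strong_induction_on with
  | _ k ih =>
  intro ι _ hcard N hN p q hp hq hkq
  classical
  haveI : NeZero p := ⟨hp.ne'⟩
  haveI : NeZero q := ⟨hq.ne'⟩
  rcases N.eq_empty_or_nonempty with rfl | hne
  · have : hit q (∅ : Set (ι → ℝ)) = ∅ := by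
      rw [hit, Set.image_eq_empty]
      ext z
      simp [ipts]
    rw [this]
    simp
  by_cases hyp : ∀ U : Submodule ℝ (ι → ℝ), U ≠ ⊤ → ∃ x ∈ N, ∃ y ∈ N, ∃ m ∈ intSub ι,
      ∃ u ∈ U, m ∉ U ∧ x - y = ((k : ℝ) * p) • m + u
  · -- all classes are hit
    have h1 : hit p N = Set.univ := by
      rw [Set.eq_univ_iff_forall]
      intro c
      obtain ⟨v, rfl⟩ := red_surj p c
      obtain ⟨m, hm, h⟩ := cover (intSub ι) (p : ℝ) ((k : ℝ) * p) (by exact_mod_cast hp)
        (by rw [Module.finrank_pi, hcard]) N hN hne hyp (cz v)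
      obtain ⟨z, rfl⟩ := mem_intSub.1 hm
      refine ⟨v + (p : ℤ) • z, ?_, ?_⟩
      · show cz (v + (p : ℤ) • z) ∈ N
        rw [cz_add, cz_smul]
        simpa using h
      · rw [red_eq_iff]
        exact ⟨z, by abel⟩
    have h2 : (hit p N).ncard = p ^ k := by
      rw [h1, Set.ncard_univ, Nat.card_eq_fintype_card, Fintype.card_fun, ZMod.card, hcard]
    have h3 := ncard_all q hq (hit q N)
    rw [hcard] at h3
    rw [h2, mul_comm]
    exact Nat.mul_le_mul_left _ h3
  · push Not at hyp
    obtain ⟨U, hU, hyp⟩ := hyp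
    obtain ⟨i, r, hr, hir, b, hb⟩ := exists_adapted U hU
    have hk : 0 < k := by omega
    have hik : i < k := by omega
    set N' : Set (Fin i ⊕ Fin r → ℝ) := {x | ∑ j, x j • cz (b j) ∈ N} with hN'
    have hN'c : Convex ℝ N' := by
      intro x hx y hy a c ha hc hac
      have h := hN hx hy ha hc hac
      show ∑ j, (a • x + c • y) j • cz (b j) ∈ N
      have e : ∑ j, (a • x + c • y) j • cz (b j) =
          a • ∑ j, x j • cz (b j) + c • ∑ j, y j • cz (b j) := by
        rw [Finset.smul_sum, Finset.smul_sum, ← Finset.sum_add_distrib]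
        apply Finset.sum_congr rfl
        intro j _
        simp only [Pi.add_apply, Pi.smul_apply, smul_eq_mul, add_smul, smul_smul]
      rw [e]
      exact h
    have hmem : ∀ z : Fin i ⊕ Fin r → ℤ, z ∈ ipts N' ↔ cz (b.equivFun.symm z) ∈ N := by
      intro z
      show ∑ j, cz z j • cz (b j) ∈ N ↔ _
      have e : ∑ j, cz z j • cz (b j) = cz (b.equivFun.symm z) := by
        rw [Basis.equivFun_symm_apply]
        funext j
        simp [cz, Finset.sum_apply]
      rw [e]
    have hrepr : ∀ z : Fin i ⊕ Fin r → ℤ, ∀ j, b.repr (b.equivFun.symm z) j = z j := by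
      intro z j
      rw [← Basis.equivFun_apply, LinearEquiv.apply_symm_apply]
    have hinj : ∀ z ∈ ipts N', ∀ z' ∈ ipts N',
        red (k * p) (z ∘ Sum.inr) = red (k * p) (z' ∘ Sum.inr) →
        z ∘ Sum.inr = z' ∘ Sum.inr := by
      intro z hz z' hz' h
      obtain ⟨w, hw⟩ := red_eq_iff.1 h
      set m0 := b.equivFun.symm (Sum.elim 0 w) with hm0
      set u0 := b.equivFun.symm (Sum.elim ((z - z') ∘ Sum.inl) 0) with hu0
      have e1 : b.equivFun.symm z - b.equivFun.symm z' = ((k * p : ℕ) : ℤ) • m0 + u0 := by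
        rw [hm0, hu0, ← map_sub, ← map_smul, ← map_add]
        congr 1
        funext j
        cases j with
        | inl j => simp
        | inr j =>
          have := congrFun hw j
          simpa using this
      have hu0U : cz u0 ∈ U := by
        rw [hb]
        intro c
        rw [hu0, hrepr]
        rfl
      have h5 := hyp _ ((hmem z).1 hz) _ ((hmem z').1 hz') (cz m0) ⟨m0, rfl⟩ (cz u0) hu0U
      have h6 : cz m0 ∈ U := by
        by_contra hcon
        apply h5 hcon
        rw [← cz_sub, e1, cz_add, cz_smul]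
        push_cast
        rfl
      rw [hb] at h6
      have hw0 : w = 0 := by
        funext c
        have := h6 c
        rw [hm0, hrepr] at this
        exact this
      rw [hw0, smul_zero] at hw
      exact sub_eq_zero.1 hw
    have h7 := count N' k p q hk hp hq hkq hinj (by
      intro y
      have h8 := ih i hik (Fin i) (Fintype.card_fin i) (slice N' y) (slice_convex hN'c y) p q hp hq
        (le_trans (Nat.mul_le_mul_right _ hik.le) hkq)
      rwa [Fintype.card_fin])
    rw [Fintype.card_fin, Fintype.card_fin, hir, hcard] at h7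
    rw [hN', hit_basis, hit_basis] at h7
    exact h7

end Pool.Agent.Helper86.BHW
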